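import Mathlib

/-!
# Project wb, the sampling lemma in generic form (helper84)
-/

set_option autoImplicit false

namespace Pool.Agent.helper84.WB

open Finset

/-- number of functions with a prescribed value at one point -/
theorem card_one {ι : Type} [Fintype ι] [DecidableEq ι] (K : ℕ) (c : Fin K) (x : ι) :
    (univ.filter (fun χ : ι → Fin K => χ x = c)).card * K = K ^ (Fintype.card ι) := by
  classical
  have h : (univ.filter (fun χ : ι → Fin K => χ x = c)) =
      Fintype.piFinset (fun i => if i = x then {c} else (univ : Finset (Fin K))) := by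
    ext χ
    simp only [mem_filter, mem_univ, true_and, Fintype.mem_piFinset]
    constructor
    · intro h i
      by_cases hi : i = x
      · subst hi; simp [h]
      · simp [hi]
    · intro h
      have := h x
      simpa using this
  rw [h, Fintype.card_piFinset]
  have h2 : ∀ i : ι, (if i = x then ({c} : Finset (Fin K)) else (univ : Finset (Fin K))).card =
      if i = x then 1 else K := by
    intro i
    by_cases hi : i = x <;> simp [hi]
  rw [Finset.prod_congr rfl (fun i _ => h2 i)]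
  rw [← Finset.mul_prod_erase univ _ (mem_univ x)]
  rw [if_pos rfl, one_mul]
  have h3 : ∏ i ∈ univ.erase x, (if i = x then 1 else K) = K ^ (univ.erase x).card := by
    rw [← Finset.prod_const]
    refine Finset.prod_congr rfl ?_
    intro i hi
    rw [if_neg (Finset.ne_of_mem_erase hi)]
  rw [h3, ← pow_succ, Finset.card_erase_of_mem (mem_univ x), Finset.card_univ]
  have : 0 < Fintype.card ι := Fintype.card_pos_iff.mpr ⟨x⟩
  congr 1
  omega

/-- number of functions with prescribed values at two points -/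
theorem card_two {ι : Type} [Fintype ι] [DecidableEq ι] (K : ℕ) (c : Fin K) (x y : ι)
    (hxy : x ≠ y) :
    (univ.filter (fun χ : ι → Fin K => χ x = c ∧ χ y = c)).card * K ^ 2 =
      K ^ (Fintype.card ι) := by
  classical
  have h : (univ.filter (fun χ : ι → Fin K => χ x = c ∧ χ y = c)) =
      Fintype.piFinset (fun i => if i = x ∨ i = y then {c} else (univ : Finset (Fin K))) := by
    ext χ
    simp only [mem_filter, mem_univ, true_and, Fintype.mem_piFinset]
    constructor
    · intro h i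
      by_cases hi : i = x ∨ i = y
      · rcases hi with hi | hi
        · subst hi; simp [h.1]
        · subst hi; simp [h.2]
      · simp [hi]
    · intro h
      have h1 := h x
      have h2 := h y
      simp at h1 h2
      exact ⟨h1, h2⟩
  rw [h, Fintype.card_piFinset]
  have h2 : ∀ i : ι, (if i = x ∨ i = y then ({c} : Finset (Fin K))
      else (univ : Finset (Fin K))).card = if i = x ∨ i = y then 1 else K := by
    intro i
    by_cases hi : i = x ∨ i = y <;> simp [hi]
  rw [Finset.prod_congr rfl (fun i _ => h2 i)]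
  rw [← Finset.mul_prod_erase univ _ (mem_univ x)]
  rw [← Finset.mul_prod_erase (univ.erase x) _ (mem_erase.mpr ⟨hxy.symm, mem_univ y⟩)]
  rw [if_pos (Or.inl rfl), if_pos (Or.inr rfl), one_mul, one_mul]
  have h3 : ∏ i ∈ (univ.erase x).erase y, (if i = x ∨ i = y then 1 else K) =
      K ^ ((univ.erase x).erase y).card := by
    rw [← Finset.prod_const]
    refine Finset.prod_congr rfl ?_
    intro i hi
    have hiy := Finset.ne_of_mem_erase hi
    have hix := Finset.ne_of_mem_erase (Finset.mem_of_mem_erase hi)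
    rw [if_neg (by tauto)]
  have h4 : ((univ.erase x).erase y).card + 2 = Fintype.card ι := by
    have h5 := Finset.card_erase_add_one (mem_univ x)
    have h6 := Finset.card_erase_add_one (mem_erase.mpr ⟨hxy.symm, mem_univ y⟩ :
      y ∈ (univ : Finset ι).erase x)
    rw [← Finset.card_univ, ← h5, ← h6]
  rw [h3, ← pow_add, h4]

/-- first moment -/
theorem mom1 {ι : Type} [Fintype ι] [DecidableEq ι] (K : ℕ) (c : Fin K) (N : Finset ι) :
    (K : ℝ) * ∑ χ : ι → Fin K, ((N.filter (fun x => χ x = c)).card : ℝ) =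
      (N.card : ℝ) * (K : ℝ) ^ (Fintype.card ι) := by
  classical
  have h1 : ∀ χ : ι → Fin K, ((N.filter (fun x => χ x = c)).card : ℝ) =
      ∑ x ∈ N, (if χ x = c then (1 : ℝ) else 0) := by
    intro χ
    rw [Finset.sum_boole]
  simp_rw [h1]
  rw [Finset.sum_comm, Finset.mul_sum]
  have h2 : ∀ x ∈ N, (K : ℝ) * ∑ χ : ι → Fin K, (if χ x = c then (1 : ℝ) else 0) =
      (K : ℝ) ^ (Fintype.card ι) := by
    intro x _
    rw [Finset.sum_boole]
    have := card_one K c x
    rw [mul_comm]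
    exact_mod_cast this
  rw [Finset.sum_congr rfl h2, Finset.sum_const, nsmul_eq_mul]

/-- second moment -/
theorem mom2 {ι : Type} [Fintype ι] [DecidableEq ι] (K : ℕ) (c : Fin K) (N : Finset ι) :
    (K : ℝ) ^ 2 * ∑ χ : ι → Fin K, ((N.filter (fun x => χ x = c)).card : ℝ) ^ 2 =
      ((N.card : ℝ) * K + (N.card : ℝ) * ((N.card : ℝ) - 1)) * (K : ℝ) ^ (Fintype.card ι) := by
  classical
  have h1 : ∀ χ : ι → Fin K, ((N.filter (fun x => χ x = c)).card : ℝ) ^ 2 =
      ∑ x ∈ N, ∑ y ∈ N, (if χ x = c ∧ χ y = c then (1 : ℝ) else 0) := by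
    intro χ
    have h0 : ((N.filter (fun x => χ x = c)).card : ℝ) =
      ∑ x ∈ N, (if χ x = c then (1 : ℝ) else 0) := by rw [Finset.sum_boole]
    rw [h0, sq, Finset.sum_mul_sum]
    refine Finset.sum_congr rfl (fun x _ => Finset.sum_congr rfl (fun y _ => ?_))
    by_cases hx : χ x = c <;> by_cases hy : χ y = c <;> simp [hx, hy]
  simp_rw [h1]
  rw [Finset.sum_comm, Finset.mul_sum]
  have h2 : ∀ x ∈ N, (K : ℝ) ^ 2 * ∑ χ : ι → Fin K, ∑ y ∈ N,
      (if χ x = c ∧ χ y = c then (1 : ℝ) else 0) =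
      ((K : ℝ) + ((N.card : ℝ) - 1)) * (K : ℝ) ^ (Fintype.card ι) := by
    intro x hx
    rw [Finset.sum_comm, Finset.mul_sum, ← Finset.add_sum_erase N _ hx]
    have h3 : (K : ℝ) ^ 2 * ∑ χ : ι → Fin K, (if χ x = c ∧ χ x = c then (1 : ℝ) else 0) =
        (K : ℝ) * (K : ℝ) ^ (Fintype.card ι) := by
      simp only [and_self]
      rw [Finset.sum_boole]
      have := card_one K c x
      have h' : ((univ.filter (fun χ : ι → Fin K => χ x = c)).card : ℝ) * K =
        (K : ℝ) ^ (Fintype.card ι) := by exact_mod_cast this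
      rw [← h']; ring
    have h4 : ∀ y ∈ N.erase x, (K : ℝ) ^ 2 * ∑ χ : ι → Fin K,
        (if χ x = c ∧ χ y = c then (1 : ℝ) else 0) = (K : ℝ) ^ (Fintype.card ι) := by
      intro y hy
      rw [Finset.sum_boole]
      have := card_two K c x y (Finset.ne_of_mem_erase hy).symm
      rw [mul_comm]
      exact_mod_cast this
    rw [h3, Finset.sum_congr rfl h4, Finset.sum_const, nsmul_eq_mul]
    have h5 : (((N.erase x).card : ℕ) : ℝ) = (N.card : ℝ) - 1 := by
      have := Finset.card_erase_add_one hx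
      rw [← this]; push_cast; ring
    rw [h5]; ring
  rw [Finset.sum_congr rfl h2, Finset.sum_const, nsmul_eq_mul]
  ring

/-- variance -/
theorem var {ι : Type} [Fintype ι] [DecidableEq ι] (K : ℕ) (c : Fin K) (N : Finset ι) :
    ∑ χ : ι → Fin K, ((K : ℝ) * ((N.filter (fun x => χ x = c)).card : ℝ) - N.card) ^ 2 ≤
      (N.card : ℝ) * K * (K : ℝ) ^ (Fintype.card ι) := by
  classical
  have h1 := mom1 K c N
  have h2 := mom2 K c N
  have h3 : ∑ χ : ι → Fin K, ((K : ℝ) * ((N.filter (fun x => χ x = c)).card : ℝ) - N.card) ^ 2 =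
      (K : ℝ) ^ 2 * ∑ χ : ι → Fin K, ((N.filter (fun x => χ x = c)).card : ℝ) ^ 2
      - 2 * N.card * ((K : ℝ) * ∑ χ : ι → Fin K, ((N.filter (fun x => χ x = c)).card : ℝ))
      + (N.card : ℝ) ^ 2 * (K : ℝ) ^ (Fintype.card ι) := by
    have h4 : ∀ χ : ι → Fin K,
        ((K : ℝ) * ((N.filter (fun x => χ x = c)).card : ℝ) - N.card) ^ 2 =
        (K : ℝ) ^ 2 * ((N.filter (fun x => χ x = c)).card : ℝ) ^ 2
        - (2 * N.card * K) * ((N.filter (fun x => χ x = c)).card : ℝ) + (N.card : ℝ) ^ 2 := by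
      intro χ; ring
    rw [Finset.sum_congr rfl (fun χ _ => h4 χ), Finset.sum_add_distrib, Finset.sum_sub_distrib,
      ← Finset.mul_sum, ← Finset.mul_sum, Finset.sum_const, nsmul_eq_mul, Finset.card_univ,
      Fintype.card_fun, Fintype.card_fin]
    push_cast
    ring
  rw [h3, h2, h1]
  have hN : (0 : ℝ) ≤ (N.card : ℝ) := Nat.cast_nonneg _
  have hKp : (0 : ℝ) ≤ (K : ℝ) ^ (Fintype.card ι) := by positivity
  nlinarith [mul_nonneg hN hKp]

/-- the sampling lemma -/
theorem samp_gen {α β : Type} [DecidableEq α] [DecidableEq β] (A : Finset α) (B : Finset β)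
    (Nb : β → Finset α) (θ K : ℕ) (hK : 1 ≤ K) (hθ : 32 * K ≤ θ)
    (hN : ∀ b ∈ B, Nb b ⊆ A ∧ θ ≤ (Nb b).card) :
    ∃ S ⊆ A, S.card * K ≤ 4 * A.card ∧
      B.card ≤ 2 * (B.filter (fun b => (Nb b).card ≤ 2 * K * (Nb b ∩ S).card)).card := by
  classical
  rcases B.eq_empty_or_nonempty with hB | hB
  · refine ⟨∅, Finset.empty_subset _, by simp, by simp [hB]⟩
  have hBc : 0 < B.card := Finset.card_pos.mpr hB
  have hAc : 0 < A.card := by
    obtain ⟨b, hb⟩ := hB
    obtain ⟨h1, h2⟩ := hN b hb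
    have := Finset.card_le_card h1
    omega
  have hKr : (1 : ℝ) ≤ K := by exact_mod_cast hK
  have hBr : (0 : ℝ) < B.card := by exact_mod_cast hBc
  have hAr : (0 : ℝ) < A.card := by exact_mod_cast hAc
  have hθr : 32 * (K : ℝ) ≤ θ := by exact_mod_cast hθ
  set ι : Type := {x // x ∈ A} with hι
  have hcι : Fintype.card ι = A.card := by simp [hι]
  let c : Fin K := ⟨0, hK⟩
  -- the neighbourhood in ι
  let M : β → Finset ι := fun b => univ.filter (fun x : ι => x.1 ∈ Nb b)
  have hM : ∀ b ∈ B, (M b).card = (Nb b).card := by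
    intro b hb
    have hb1 := (hN b hb).1
    refine Finset.card_bij (fun x _ => x.1) ?_ ?_ ?_
    · intro x hx
      exact (Finset.mem_filter.mp hx).2
    · intro x _ y _ h
      exact Subtype.ext h
    · intro y hy
      exact ⟨⟨y, hb1 hy⟩, Finset.mem_filter.mpr ⟨mem_univ _, hy⟩, rfl⟩
  let Φ : (ι → Fin K) → ℝ := fun χ =>
    (K : ℝ) * ((univ.filter (fun x : ι => χ x = c)).card : ℝ) / (4 * A.card) +
      ∑ b ∈ B, ((K : ℝ) * (((M b).filter (fun x => χ x = c)).card : ℝ) - (M b).card) ^ 2 *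
        (4 / ((Nb b).card : ℝ) ^ 2 * (2 / B.card))
  have hsum : ∑ χ : ι → Fin K, Φ χ < ∑ _χ : ι → Fin K, (1 : ℝ) := by
    have hone : ∑ _χ : ι → Fin K, (1 : ℝ) = (K : ℝ) ^ A.card := by
      rw [Finset.sum_const, Finset.card_univ, Fintype.card_fun, Fintype.card_fin, hcι,
        nsmul_eq_mul]
      push_cast; ring
    rw [hone]
    show ∑ χ : ι → Fin K, (_ + _) < _
    rw [Finset.sum_add_distrib]
    have hp1 : ∑ χ : ι → Fin K, (K : ℝ) * ((univ.filter (fun x : ι => χ x = c)).card : ℝ) /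
        (4 * A.card) = (K : ℝ) ^ A.card / 4 := by
      rw [← Finset.sum_div, ← Finset.mul_sum, mom1 K c univ, Finset.card_univ, hcι]
      field_simp
    have hp2 : ∑ χ : ι → Fin K, ∑ b ∈ B,
        ((K : ℝ) * (((M b).filter (fun x => χ x = c)).card : ℝ) - (M b).card) ^ 2 *
        (4 / ((Nb b).card : ℝ) ^ 2 * (2 / B.card)) ≤ (K : ℝ) ^ A.card / 4 := by
      rw [Finset.sum_comm]
      have hb : ∀ b ∈ B, ∑ χ : ι → Fin K,
          ((K : ℝ) * (((M b).filter (fun x => χ x = c)).card : ℝ) - (M b).card) ^ 2 *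
          (4 / ((Nb b).card : ℝ) ^ 2 * (2 / B.card)) ≤ (K : ℝ) ^ A.card / 4 / B.card := by
        intro b hb
        rw [← Finset.sum_mul]
        have hv := var K c (M b)
        rw [hcι] at hv
        have hcard := hM b hb
        have hn : (θ : ℝ) ≤ ((Nb b).card : ℝ) := by exact_mod_cast (hN b hb).2
        have hnpos : (0 : ℝ) < ((Nb b).card : ℝ) := by linarith
        have hKA : (0 : ℝ) < (K : ℝ) ^ A.card := by positivity
        have hw : (0 : ℝ) ≤ 4 / ((Nb b).card : ℝ) ^ 2 * (2 / B.card) := by positivity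
        refine (mul_le_mul_of_nonneg_right hv hw).trans ?_
        rw [hcard]
        have e : ((Nb b).card : ℝ) * K * (K : ℝ) ^ A.card *
            (4 / ((Nb b).card : ℝ) ^ 2 * (2 / B.card)) =
            (8 * K / (Nb b).card) * ((K : ℝ) ^ A.card / B.card) := by
          field_simp; ring
        rw [e]
        have h8 : 8 * (K : ℝ) / (Nb b).card ≤ 1 / 4 := by
          rw [div_le_iff₀ hnpos]; linarith
        have h9 : (0 : ℝ) ≤ (K : ℝ) ^ A.card / B.card := by positivity
        have := mul_le_mul_of_nonneg_right h8 h9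
        refine this.trans (le_of_eq ?_)
        ring
      refine (Finset.sum_le_sum hb).trans (le_of_eq ?_)
      rw [Finset.sum_const, nsmul_eq_mul]
      field_simp
    have hKA : (0 : ℝ) < (K : ℝ) ^ A.card := by positivity
    linarith
  obtain ⟨χ, _, hχ⟩ := Finset.exists_lt_of_sum_lt hsum
  -- the sample
  let S : Finset α := A.filter (fun x => ∃ h : x ∈ A, χ ⟨x, h⟩ = c)
  have hS1 : (univ.filter (fun x : ι => χ x = c)).card = S.card := by
    refine Finset.card_bij (fun x _ => x.1) ?_ ?_ ?_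
    · intro x hx
      have := (Finset.mem_filter.mp hx).2
      exact Finset.mem_filter.mpr ⟨x.2, x.2, this⟩
    · intro x _ y _ h
      exact Subtype.ext h
    · intro y hy
      obtain ⟨h1, h2, h3⟩ := Finset.mem_filter.mp hy
      exact ⟨⟨y, h1⟩, Finset.mem_filter.mpr ⟨mem_univ _, h3⟩, rfl⟩
  have hS2 : ∀ b ∈ B, ((M b).filter (fun x => χ x = c)).card = (Nb b ∩ S).card := by
    intro b hb
    have hb1 := (hN b hb).1
    refine Finset.card_bij (fun x _ => x.1) ?_ ?_ ?_
    · intro x hx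
      obtain ⟨h1, h2⟩ := Finset.mem_filter.mp hx
      have h3 := (Finset.mem_filter.mp h1).2
      exact Finset.mem_inter.mpr ⟨h3, Finset.mem_filter.mpr ⟨x.2, x.2, h2⟩⟩
    · intro x _ y _ h
      exact Subtype.ext h
    · intro y hy
      obtain ⟨h1, h2⟩ := Finset.mem_inter.mp hy
      obtain ⟨h3, h4, h5⟩ := Finset.mem_filter.mp h2
      exact ⟨⟨y, h3⟩, Finset.mem_filter.mpr ⟨Finset.mem_filter.mpr ⟨mem_univ _, h1⟩, h5⟩, rfl⟩
  have hpos2 : ∀ b ∈ B, (0 : ℝ) ≤
      ((K : ℝ) * (((M b).filter (fun x => χ x = c)).card : ℝ) - (M b).card) ^ 2 *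
        (4 / ((Nb b).card : ℝ) ^ 2 * (2 / B.card)) := by
    intro b _; positivity
  have hs0 : (0 : ℝ) ≤ ∑ b ∈ B,
      ((K : ℝ) * (((M b).filter (fun x => χ x = c)).card : ℝ) - (M b).card) ^ 2 *
        (4 / ((Nb b).card : ℝ) ^ 2 * (2 / B.card)) := Finset.sum_nonneg hpos2
  have hf0 : (0 : ℝ) ≤ (K : ℝ) * ((univ.filter (fun x : ι => χ x = c)).card : ℝ) /
      (4 * A.card) := by positivity
  have hχ' : (K : ℝ) * ((univ.filter (fun x : ι => χ x = c)).card : ℝ) / (4 * A.card) +
      ∑ b ∈ B, ((K : ℝ) * (((M b).filter (fun x => χ x = c)).card : ℝ) - (M b).card) ^ 2 *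
        (4 / ((Nb b).card : ℝ) ^ 2 * (2 / B.card)) < 1 := hχ
  refine ⟨S, Finset.filter_subset _ _, ?_, ?_⟩
  · have h1 : (K : ℝ) * ((univ.filter (fun x : ι => χ x = c)).card : ℝ) / (4 * A.card) < 1 := by
      linarith
    rw [div_lt_one (by positivity), hS1] at h1
    have h2 : (S.card : ℝ) * K ≤ 4 * A.card := by linarith
    exact_mod_cast h2
  · -- the bad ones
    by_contra hcon
    push Not at hcon
    set G := B.filter (fun b => (Nb b).card ≤ 2 * K * (Nb b ∩ S).card) with hG
    set Bd := B.filter (fun b => ¬ (Nb b).card ≤ 2 * K * (Nb b ∩ S).card) with hBd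
    have hGB : G.card + Bd.card = B.card := by
      rw [hG, hBd]
      exact Finset.card_filter_add_card_filter_not _
    have hBd2 : B.card < 2 * Bd.card := by omega
    have hb : ∀ b ∈ Bd, 2 / (B.card : ℝ) ≤
        ((K : ℝ) * (((M b).filter (fun x => χ x = c)).card : ℝ) - (M b).card) ^ 2 *
        (4 / ((Nb b).card : ℝ) ^ 2 * (2 / B.card)) := by
      intro b hb
      obtain ⟨h1, h2⟩ := Finset.mem_filter.mp hb
      push Not at h2
      rw [hS2 b h1, hM b h1]
      have hn : (θ : ℝ) ≤ ((Nb b).card : ℝ) := by exact_mod_cast (hN b h1).2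
      have hnpos : (0 : ℝ) < ((Nb b).card : ℝ) := by linarith
      have h3 : 2 * (K : ℝ) * ((Nb b ∩ S).card : ℝ) < ((Nb b).card : ℝ) := by exact_mod_cast h2
      have h4 : ((Nb b).card : ℝ) / 2 < ((Nb b).card : ℝ) - K * ((Nb b ∩ S).card : ℝ) := by
        linarith
      have h5 : (((Nb b).card : ℝ) / 2) ^ 2 ≤
          ((K : ℝ) * ((Nb b ∩ S).card : ℝ) - (Nb b).card) ^ 2 := by
        nlinarith
      have h6 : (1 : ℝ) ≤ ((K : ℝ) * ((Nb b ∩ S).card : ℝ) - (Nb b).card) ^ 2 *
          (4 / ((Nb b).card : ℝ) ^ 2) := by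
        rw [← mul_div_assoc, le_div_iff₀ (by positivity)]
        nlinarith
      have h7 : (0 : ℝ) ≤ 2 / (B.card : ℝ) := by positivity
      calc 2 / (B.card : ℝ) = 1 * (2 / (B.card : ℝ)) := by ring
        _ ≤ (((K : ℝ) * ((Nb b ∩ S).card : ℝ) - (Nb b).card) ^ 2 *
          (4 / ((Nb b).card : ℝ) ^ 2)) * (2 / (B.card : ℝ)) :=
            mul_le_mul_of_nonneg_right h6 h7
        _ = _ := by ring
    have h10 : (Bd.card : ℝ) * (2 / B.card) ≤ ∑ b ∈ B,
        ((K : ℝ) * (((M b).filter (fun x => χ x = c)).card : ℝ) - (M b).card) ^ 2 *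
        (4 / ((Nb b).card : ℝ) ^ 2 * (2 / B.card)) := by
      calc (Bd.card : ℝ) * (2 / B.card) = ∑ b ∈ Bd, (2 / (B.card : ℝ)) := by
            rw [Finset.sum_const, nsmul_eq_mul]
        _ ≤ ∑ b ∈ Bd, ((K : ℝ) * (((M b).filter (fun x => χ x = c)).card : ℝ) -
            (M b).card) ^ 2 * (4 / ((Nb b).card : ℝ) ^ 2 * (2 / B.card)) :=
            Finset.sum_le_sum hb
        _ ≤ _ := Finset.sum_le_sum_of_subset_of_nonneg (Finset.filter_subset _ _)
            (fun b hb _ => hpos2 b hb)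
    have h11 : (1 : ℝ) < (Bd.card : ℝ) * (2 / B.card) := by
      rw [← mul_div_assoc, lt_div_iff₀ hBr]
      have : (B.card : ℝ) < 2 * Bd.card := by exact_mod_cast hBd2
      linarith
    linarith

end Pool.Agent.helper84.WB
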