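import Pool.Agent.helper78.WB.SpecIIa
import Pool.Agent.helper84.WB.SAMPgen

/-!
# Project wb, row IIa.SAMP (helper84)
-/

set_option autoImplicit false

namespace Pool.Agent.WB

/-- row SAMP -/
theorem SAMP : SAMP_stmt := by
  classical
  intro A B' Nb θ K hK hθ hN
  obtain ⟨S, hS, h1, h2⟩ := Pool.Agent.helper84.WB.samp_gen A B' Nb θ K hK hθ hN
  refine ⟨S, hS, h1, h2.trans (Nat.mul_le_mul_left 2 (Finset.card_le_card ?_))⟩
  intro b hb
  obtain ⟨hb1, hb2⟩ := Finset.mem_filter.mp hb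
  have h3 := (hN b hb1).2
  refine Finset.mem_filter.mpr ⟨hb1, ?_⟩
  have h4 : (Nb b).card ≤ 2 * K * (Nb b ∩ S).card := by
    rw [show (Nb b ∩ S).card = (Nb b ∩ S).card from rfl]
    exact hb2
  exact h3.trans h4

/-- SAMP, from VAR (not used) -/
theorem SAMP' (_h : VAR_stmt) : SAMP_stmt := SAMP

end Pool.Agent.WB
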